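import Pool.Agent.Helper73.LOMin.Main
import Pool.Agent.Helper41.LOMin.BG

/-!
MP_70d4a1_al, partial answer to Q1 (finite generation dropped): every countable left-orderable
group embeds in a countable left-orderable group whose conjugation action on its space of left
orders is minimal.
-/

namespace Pool.Agent.Results.MP_70d4a1_al.CountableMinimal

/-- Every countable left-ordered group `(G₀, P₀)` embeds, as a left-ordered group, in a countable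
left-ordered group `(G, P₁)` such that for all left orders `P`, `Q` on `G` (given by their positive
cones) and every finite `F ⊆ G` some conjugate of `P` agrees with `Q` on `F`: every orbit of the
conjugation action of `G` on its space of left orders is dense. -/
theorem result (G₀ : Type) [Group G₀] [Countable G₀] (P₀ : Set G₀)
    (hP₀ : (∀ a ∈ P₀, ∀ b ∈ P₀, a * b ∈ P₀) ∧ (1 : G₀) ∉ P₀ ∧
      (∀ a : G₀, a ≠ 1 → (a ∈ P₀ ∨ a⁻¹ ∈ P₀)) ∧ (∀ a ∈ P₀, a⁻¹ ∉ P₀)) :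
    ∃ (G : Type) (_ : Group G) (φ : G₀ →* G) (P₁ : Set G),
      Countable G ∧ Nontrivial G ∧ Function.Injective φ ∧
      ((∀ a ∈ P₁, ∀ b ∈ P₁, a * b ∈ P₁) ∧ (1 : G) ∉ P₁ ∧
        (∀ a : G, a ≠ 1 → (a ∈ P₁ ∨ a⁻¹ ∈ P₁)) ∧ (∀ a ∈ P₁, a⁻¹ ∉ P₁)) ∧
      (∀ g : G₀, φ g ∈ P₁ ↔ g ∈ P₀) ∧
      ∀ P Q : Set G,
        ((∀ a ∈ P, ∀ b ∈ P, a * b ∈ P) ∧ (1 : G) ∉ P ∧
          (∀ a : G, a ≠ 1 → (a ∈ P ∨ a⁻¹ ∈ P)) ∧ (∀ a ∈ P, a⁻¹ ∉ P)) →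
        ((∀ a ∈ Q, ∀ b ∈ Q, a * b ∈ Q) ∧ (1 : G) ∉ Q ∧
          (∀ a : G, a ≠ 1 → (a ∈ Q ∨ a⁻¹ ∈ Q)) ∧ (∀ a ∈ Q, a⁻¹ ∉ Q)) →
        ∀ F : Finset G, ∃ g : G, ∀ f ∈ F, (g * f * g⁻¹ ∈ P ↔ f ∈ Q) := by
  obtain ⟨G, gG, φ, P₁, h1, h2, h3, h4, h5, h6⟩ :=
    PoolLOMin.main_of PoolLOMin.bounded_gen G₀ P₀ hP₀
  exact ⟨G, gG, φ, P₁, h1, h3, h4, h2, h5, fun P Q hP hQ F => h6 P Q hP hQ F⟩

end Pool.Agent.Results.MP_70d4a1_al.CountableMinimal
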