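import Pool.Agent.H36LO.Lab
import Pool.Agent.H36LO.Struct

/-!
MP_70d4a1_al, partial answer to Q1: groups of Hyde-Lodha and Matte Bon-Triestino type do not have
minimal conjugation action.
-/

namespace Pool.Agent.Results.MP_70d4a1_al.LabelledF

open Pool.Agent.H36LO

/-- Let `G` be a countable group acting faithfully on a family of lines `{x} × ℝ`, `x ∈ X ≠ ∅`, by
increasing homeomorphisms, let `lb x n` be an arbitrary orientation of the interval `[n, n + 1]` of
the line `x`, and let `[m / 2 ^ k, (m + 1) / 2 ^ k]` be a dyadic interval in `[0, 1]`.  If for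
every piecewise linear dyadic homeomorphism `h` of the line with support in this interval some
element of `G` acts on each `[n, n + 1]` of each line as `h` or, for the other orientation, as the
mirror image of `h`, then `G` is left-orderable and its conjugation action on its left orders is
not minimal. -/
theorem result (G X : Type) [Group G] [Countable G] [Nonempty X] (ρ : X → G →* (ℝ ≃o ℝ))
    (hρ : ∀ g : G, (∀ x, ρ x g = 1) → g = 1) (lb : X → ℤ → Bool) (m k : ℕ) (hm : m + 1 ≤ 2 ^ k)
    (hF : ∀ h : ℝ ≃o ℝ, PL2 h →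
      (∀ s, ¬ ((m : ℝ) / 2 ^ k < s ∧ s < ((m : ℝ) + 1) / 2 ^ k) → h s = s) →
      ∃ g : G, ∀ (x : X) (n : ℤ) (s : ℝ), 0 ≤ s → s ≤ 1 →
        (lb x n = true → ρ x g (n + s) = n + h s) ∧
        (lb x n = false → ρ x g (n + 1 - s) = n + 1 - h s)) :
    (∃ P : Set G, Cone P) ∧ ¬ Minimal G := by
  obtain ⟨P, Q, hP, hQ, F, hF⟩ := lab ρ hρ lb m k hm hF
  exact ⟨⟨P, hP⟩, fun h => by
    obtain ⟨g, hg⟩ := h P Q hP hQ F
    exact hF g hg⟩

end Pool.Agent.Results.MP_70d4a1_al.LabelledF
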