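import Pool.Agent.H36LO.Inf

/-!
MP_70d4a1_al, partial answer to Q1: a dynamical property of finitely generated left-orderable
groups with minimal conjugation action.
-/

namespace Pool.Agent.Results.MP_70d4a1_al.Recurrence

open Pool.Agent.H36LO

/-- Let `G` be a finitely generated left-orderable group whose conjugation action on its left
orders is minimal, acting on the line by increasing homeomorphisms without global fixed point.
Then there is a point `s₀` such that every `f` in `G` fixes every point of the orbit of `s₀`, or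
moves points up and points down arbitrarily far to the right and arbitrarily far to the left. -/
theorem result (G : Type) [Group G] [Group.FG G] (hLO : ∃ P : Set G, Cone P) (hmin : Minimal G)
    (ρ : G →* (ℝ ≃o ℝ)) (hρ : ∀ s : ℝ, ∃ g : G, ρ g s ≠ s) :
    ∃ s₀ : ℝ, ∀ f : G, (∀ g : G, ρ f (ρ g s₀) = ρ g s₀) ∨
      ∀ b : ℝ, (∃ s, b < s ∧ s < ρ f s) ∧ (∃ s, b < s ∧ ρ f s < s) ∧
        (∃ s, s < b ∧ s < ρ f s) ∧ (∃ s, s < b ∧ ρ f s < s) := by
  obtain ⟨P, hP⟩ := hLO
  exact recur hmin hP ρ hρ

end Pool.Agent.Results.MP_70d4a1_al.Recurrence
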