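import Pool.Agent.H36LO.Red2

/-!
MP_70d4a1_al: a reduction of Q1.
-/

namespace Pool.Agent.Results.MP_70d4a1_al.Reduction

open Pool.Agent.H36LO

/-- If Q1 has a positive answer, then it has one by a group `G` such that every homomorphism of
`G` to a left-orderable group is injective or trivial and such that in every action of `G` on the
line by increasing homeomorphisms without global fixed point every `f ≠ 1` moves points up and
points down arbitrarily far to the right and arbitrarily far to the left. -/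
theorem result
    (h : ∃ (G : Type) (_ : Group G), Group.FG G ∧ Nontrivial G ∧ (∃ P : Set G, Cone P) ∧
      Minimal G) :
    ∃ (G : Type) (_ : Group G), Group.FG G ∧ Nontrivial G ∧ (∃ P : Set G, Cone P) ∧ Minimal G ∧
      (∀ (H : Type) (_ : Group H) (φ : G →* H), (∃ Q : Set H, Cone Q) →
        (Function.Injective φ ∨ ∀ g, φ g = 1)) ∧
      (∀ ρ : G →* (ℝ ≃o ℝ), (∀ s : ℝ, ∃ g : G, ρ g s ≠ s) → ∀ f : G, f ≠ 1 → ∀ b : ℝ,
        (∃ s, b < s ∧ s < ρ f s) ∧ (∃ s, b < s ∧ ρ f s < s) ∧
          (∃ s, s < b ∧ s < ρ f s) ∧ (∃ s, s < b ∧ ρ f s < s)) := by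
  obtain ⟨G, gG, hfg, hnt, ⟨P, hP⟩, hG, hs⟩ := reduction h
  exact ⟨G, gG, hfg, hnt, ⟨P, hP⟩, hG, hs, fun ρ hd f hf b => simple_recur hG hP hs ρ hd f hf b⟩

end Pool.Agent.Results.MP_70d4a1_al.Reduction
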